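import Pool.Agent.Helper61.Motz.Peel
import Pool.Agent.Helper28.BPack.Base

/-!
# A frame adapted to a hyperplane

Copy of helper28's `exists_frame` with one more conclusion (the atom `o` is in the frame).
-/

set_option autoImplicit false
set_option linter.unusedSectionVars false

namespace Pool.Agent.Helper85.SC

open Pool.Agent.Helper28.BPack

variable {L : Type} [Lattice L] [BoundedOrder L] [Fintype L] [IsUpperModularLattice L]

/-- A basis of the hyperplane `Q` together with the atom `o` off `Q`, as a piece. -/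
theorem exists_frame85 (hat : ∀ x : L, ∃ s : Finset L, (∀ a ∈ s, IsAtom a) ∧ s.sup id = x)
    {Q o : L} (hQ : rk Q + 1 = rk (⊤ : L)) (ho : IsAtom o) (hoQ : ¬ o ≤ Q) :
    ∃ p0 : Pc L, p0.Good ∧ p0.x = ⊥ ∧ p0.n = rk (⊤ : L) ∧
      (∃ J, p0.val J = o) ∧ ∀ x, x ≤ Q → ∀ J, p0.val J = x ⊔ o → ∃ J', p0.val J' = x := by
  classical
  obtain ⟨s, hs1, hs2⟩ := hat Q
  obtain ⟨C, hCs, hC1, hC2⟩ := exists_basis (⊥ : L) s hs1
  rw [bot_sup_eq, bot_sup_eq, hs2] at hC1
  rw [bot_sup_eq, hs2, rk_bot, add_zero] at hC2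
  have hCQ : ∀ a ∈ C, a ≤ Q := fun a ha => by
    rw [← hC1]
    exact Finset.le_sup (f := id) ha
  have hoC : o ∉ C := fun h => hoQ (hCQ o h)
  have hcard : (insert o C).card = rk (⊤ : L) := by
    rw [Finset.card_insert_of_notMem hoC, hC2, hQ]
  let e : Fin (rk (⊤ : L)) ≃ (insert o C : Finset L) :=
    ((insert o C).equivFinOfCardEq hcard).symm
  let a : Fin (rk (⊤ : L)) → L := fun i => (e i : L)
  have hamem : ∀ i, a i ∈ insert o C := fun i => (e i).2
  have haat : ∀ i, IsAtom (a i) := by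
    intro i
    rcases Finset.mem_insert.mp (hamem i) with h | h
    · rw [h]; exact ho
    · exact hs1 _ (hCs h)
  have hainj : Function.Injective a := fun i j h => e.injective (Subtype.ext h)
  have hsurj : ∀ b ∈ insert o C, ∃ i, a i = b := fun b hb => ⟨e.symm ⟨b, hb⟩, by
    change ((e (e.symm ⟨b, hb⟩) : (insert o C : Finset L)) : L) = b
    rw [Equiv.apply_symm_apply]⟩
  have hsup : (Finset.univ : Finset (Fin (rk (⊤ : L)))).sup a = (insert o C).sup id := by
    apply le_antisymm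
    · exact Finset.sup_le (fun i _ => Finset.le_sup (f := id) (hamem i))
    · refine Finset.sup_le (fun b hb => ?_)
      obtain ⟨i, rfl⟩ := hsurj b hb
      exact Finset.le_sup (f := a) (Finset.mem_univ i)
  let p0 : Pc L := ⟨⊥, rk (⊤ : L), a⟩
  have hgood : p0.Good := by
    refine good_of_rk haat ?_
    change rk (⊥ ⊔ (Finset.univ : Finset (Fin (rk (⊤ : L)))).sup a) = rk (⊥ : L) + rk (⊤ : L)
    rw [hsup, Finset.sup_insert, hC1, id, bot_sup_eq, sup_comm, rk_sup_atom ho hoQ, rk_bot, hQ,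
      zero_add]
  obtain ⟨j0, hj0⟩ := hsurj o (Finset.mem_insert_self o C)
  refine ⟨p0, hgood, rfl, rfl, ⟨{j0}, ?_⟩, ?_⟩
  · change ⊥ ⊔ ({j0} : Finset (Fin (rk (⊤ : L)))).sup a = o
    rw [Finset.sup_singleton, bot_sup_eq, hj0]
  intro x hx J hJ
  have hj0J : j0 ∈ J := by
    by_contra h
    refine hgood.2 J j0 h ?_
    change a j0 ≤ p0.val J
    rw [hj0, hJ]
    exact le_sup_right
  refine ⟨J.erase j0, ?_⟩
  have h1 : p0.val J = p0.val (J.erase j0) ⊔ o := by
    conv_lhs => rw [← Finset.insert_erase hj0J]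
    rw [Pc.val_insert]
    change p0.val (J.erase j0) ⊔ a j0 = _
    rw [hj0]
  have h2 : p0.val (J.erase j0) ≤ Q := by
    change ⊥ ⊔ (J.erase j0).sup a ≤ Q
    refine sup_le bot_le (Finset.sup_le (fun i hi => ?_))
    rcases Finset.mem_insert.mp (hamem i) with h | h
    · exact absurd (hainj (h.trans hj0.symm)) (Finset.ne_of_mem_erase hi)
    · exact hCQ _ h
  exact Pool.Agent.Helper61.Motz.cancel h2 hx ho hoQ (h1.symm.trans hJ)

end Pool.Agent.Helper85.SC
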