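import Pool.Agent.Helper85.SC.Core
import Pool.Agent.Helper85.SC.Frame
import Pool.Agent.Helper42.SC.Avoid
import Pool.Agent.Helper49.SC.Largest
import Pool.Agent.Helper74.SC.Bottoms
import Pool.Agent.Helper50.SC.Small

/-!
# Boolean packings of geometric lattices with small colines
-/

set_option autoImplicit false
set_option linter.unusedSectionVars false

namespace Pool.Agent.Helper85.SC

open Pool.Agent.Helper28.BPack Pool.Agent.Helper50.Sparse Finset

variable {L : Type} [Lattice L] [BoundedOrder L] [Fintype L] [IsUpperModularLattice L]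

open Classical in
theorem at_eq (x : L) : at' x = {a : L | IsAtom a ∧ a ≤ x}.ncard := by
  unfold at'
  rw [← Set.ncard_coe_finset]
  congr 1
  ext a
  simp

/-- **One large hyperplane, small colines.** -/
theorem hasPack_big (hat : ∀ x : L, ∃ s : Finset L, (∀ a ∈ s, IsAtom a) ∧ s.sup id = x)
    (hr : 4 ≤ rk (⊤ : L)) {t : ℕ} (ht1 : 1 ≤ t) (hta : ∀ x : L, rk x + 2 ≤ rk (⊤ : L) → at' x ≤ t)
    {x : L} (hx : x ≠ ⊤)
    (hxT : 8 ^ rk (⊤ : L) * rk (⊤ : L) * t ^ ((rk (⊤ : L) + 1) / 2) +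
      (2 ^ rk (⊤ : L) + 1) * t ≤ at' x) : HasPack (⊥ : L) := by
  classical
  obtain ⟨r, hrr⟩ : ∃ r, r = rk (⊤ : L) := ⟨_, rfl⟩
  obtain ⟨M, hM⟩ : ∃ M, M = 8 ^ rk (⊤ : L) * rk (⊤ : L) * t ^ ((rk (⊤ : L) + 1) / 2) :=
    ⟨_, rfl⟩
  rw [← hM] at hxT
  -- the size of M
  have hMt : 2 ^ rk (⊤ : L) * t ≤ M := by
    rw [hM]
    apply Nat.mul_le_mul
    · have h1 : (2 : ℕ) ^ rk (⊤ : L) ≤ 8 ^ rk (⊤ : L) := Nat.pow_le_pow_left (by norm_num) _
      exact h1.trans (Nat.le_mul_of_pos_right _ (by omega))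
    · exact Nat.le_self_pow (by omega) t
  have h2r : 1 ≤ 2 ^ rk (⊤ : L) := Nat.one_le_pow _ _ (by norm_num)
  have htM : t ≤ M := by
    have h1 : 1 * t ≤ 2 ^ rk (⊤ : L) * t := Nat.mul_le_mul_right t h2r
    omega
  have hexp : (2 ^ rk (⊤ : L) + 1) * t = 2 ^ rk (⊤ : L) * t + t := by ring
  rw [hexp] at hxT
  obtain ⟨Q, hQ, hQT, hmax⟩ := Pool.Agent.Helper49.SC.exists_largest hat
    (T := M + 2 ^ rk (⊤ : L) * t + t - 1) ⟨x, hx, by
      change _ < at' x
      omega⟩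
  change _ < at' Q at hQT
  have hQtop : Q ≠ ⊤ := by
    intro h
    rw [h] at hQ
    omega
  obtain ⟨o, ho, -, hoQ⟩ := exists_atom hat (x := Q) (y := (⊤ : L))
    (fun h => hQtop (top_le_iff.mp h))
  obtain ⟨p0, h0, hx0, hn0, hp0o, hcan⟩ := exists_frame85 hat hQ ho hoQ
  let ι := {a : L // (IsAtom a ∧ a ≤ Q) ∧ ∀ J, a ≤ p0.val J → Q ≤ p0.val J}
  let c : ι → L := Subtype.val
  have hcard : Fintype.card ι =
      (univ.filter (fun a : L => (IsAtom a ∧ a ≤ Q) ∧
        ∀ J, a ≤ p0.val J → Q ≤ p0.val J)).card := Fintype.card_subtype _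
  have havoid := Pool.Agent.Helper42.SC.card_avoid (p0 := p0) hn0 (Q := Q) (t := t) hta hQ
  rw [← hcard] at havoid
  change at' Q ≤ _ at havoid
  obtain ⟨n, hn⟩ : ∃ n, n = Fintype.card ι := ⟨_, rfl⟩
  rw [← hn] at havoid
  have hnM : M + t ≤ n := by omega
  apply hasPack_core (Q := Q) (o := o) (c := c) hr hQ ho hoQ (fun j => j.2.1.1) (fun j => j.2.1.2)
    p0 h0 hx0 hn0 hp0o hcan (fun j J h => j.2.2 J h) (t := t) (D := n - t) (N := at' Q) ht1
  · intro y hy
    have h1 : y ⊓ Q < Q := lt_of_le_of_ne inf_le_right (fun h => hy (h ▸ inf_le_left))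
    have h2 := rk_lt h1
    refine le_trans ?_ (hta (y ⊓ Q) (by omega))
    rw [← Finset.card_map (Function.Embedding.subtype _)]
    apply Finset.card_le_card
    intro a ha
    obtain ⟨j, hj, rfl⟩ := Finset.mem_map.mp ha
    exact Finset.mem_filter.mpr ⟨Finset.mem_univ _, j.2.1.1,
      le_inf (Finset.mem_filter.mp hj).2 j.2.1.2⟩
  · exact hta
  · exact hmax
  · intro q hq
    exact Pool.Agent.Helper74.SC.card_bottoms hat ht1 hq
  · omega
  · omega
  · rw [← hn]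
    omega
  · rw [← hn]
    omega
  · omega
  · rw [← hM]
    omega

/-- The large hyperplane case in the form of helper50. -/
theorem big : Pool.Agent.Helper50.SC.Big := by
  intro L _ _ _ _ hat hr t ht1 ht Q hQ _ hT
  refine hasPack_big hat hr ht1 (fun x hx => ?_) hQ.1 ?_
  · rw [at_eq]
    exact ht x hx
  · rw [at_eq]
    exact hT

/-- **Small colines.** Rank `r ≥ 4`, at most `t` atoms below each element of rank `r - 2`, and
`(1024 t) ^ (r + 1)` atoms, or `8 ^ r r t ^ ((r + 1) / 2) + (2 ^ r + 1) t` atoms below some element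
other than the top. -/
theorem hasPack_colines (hat : ∀ x : L, ∃ s : Finset L, (∀ a ∈ s, IsAtom a) ∧ s.sup id = x)
    (r t : ℕ) (hr : 4 ≤ r) (hrk : rk (⊤ : L) = r)
    (ht : ∀ x : L, rk x + 2 = r → {a : L | IsAtom a ∧ a ≤ x}.ncard ≤ t)
    (h : (1024 * t) ^ (r + 1) ≤ {a : L | IsAtom a}.ncard ∨
      ∃ x : L, x ≠ ⊤ ∧ 8 ^ r * r * t ^ ((r + 1) / 2) + (2 ^ r + 1) * t ≤
        {a : L | IsAtom a ∧ a ≤ x}.ncard) : HasPack (⊥ : L) := by
  classical
  subst hrk
  obtain ⟨hta, ht1⟩ := Pool.Agent.Helper49.SC.small_of_coline hat (t := t) (fun x hx => by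
    change at' x ≤ t
    rw [at_eq]
    exact ht x hx) hr
  change ∀ x : L, rk x + 2 ≤ rk (⊤ : L) → at' x ≤ t at hta
  rcases h with h | ⟨x, hx, h⟩
  · exact Pool.Agent.Helper50.SC.hasPack_colines big hat hr t (fun x hx => by
      rw [← at_eq]
      exact hta x hx) h
  · exact hasPack_big hat hr ht1 hta hx (by
      rw [at_eq]
      exact h)

/-- **Small colines**, over any element `f`. -/
theorem hasPack_colinesF (hat : ∀ x : L, ∃ s : Finset L, (∀ a ∈ s, IsAtom a) ∧ s.sup id = x)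
    {f : L} {R : ℕ} (hR : rk (⊤ : L) = rk f + R) (hr : 4 ≤ R) (t : ℕ)
    (ht : ∀ x : L, f ≤ x → rk x + 2 = rk (⊤ : L) → {u : L | f ⋖ u ∧ u ≤ x}.ncard ≤ t)
    (h : (1024 * t) ^ (R + 1) ≤ {u : L | f ⋖ u}.ncard ∨
      ∃ x : L, f ≤ x ∧ x ≠ ⊤ ∧ 8 ^ R * R * t ^ ((R + 1) / 2) + (2 ^ R + 1) * t ≤
        {u : L | f ⋖ u ∧ u ≤ x}.ncard) : HasPack f := by
  classical
  have hum := Pool.Agent.Helper50.TW.ici_um f
  have hrk : ∀ z : Set.Ici f, rk z + rk f = rk (z : L) := by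
    intro z
    have h1 := Pool.Agent.Helper28.TW.height_Ici (L := L) (e := f) z
    rw [← coe_rk (L := Set.Ici f)] at h1
    exact_mod_cast h1
  have hatom : ∀ z : Set.Ici f, IsAtom z ↔ f ⋖ (z : L) := by
    intro z
    rw [← bot_covBy_iff, Pool.Agent.Helper50.TW.ici_cov]
    rfl
  have hrt : rk (⊤ : Set.Ici f) = R := by
    have h1 := hrk ⊤
    have h2 : ((⊤ : Set.Ici f) : L) = ⊤ := rfl
    rw [h2] at h1
    omega
  have hatI := Pool.Agent.Helper50.TW.ici_atomistic hat f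
  have hpack : HasPack (⊥ : Set.Ici f) := by
    refine hasPack_colines hatI R t hr hrt ?_ ?_
    · intro x hx
      have h1 := hrk x
      refine le_trans ?_ (ht (x : L) x.2 (by omega))
      rw [← Set.ncard_image_of_injective {a : Set.Ici f | IsAtom a ∧ a ≤ x} Subtype.val_injective]
      apply Set.ncard_le_ncard _ (Set.toFinite _)
      rintro _ ⟨a, ⟨ha, hax⟩, rfl⟩
      exact ⟨(hatom a).mp ha, hax⟩
    · rcases h with h | ⟨x, hfx, hx, h⟩
      · left
        refine h.trans ?_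
        rw [← Set.ncard_image_of_injective {a : Set.Ici f | IsAtom a} Subtype.val_injective]
        apply Set.ncard_le_ncard _ (Set.toFinite _)
        intro u hu
        exact ⟨⟨u, hu.le⟩, (hatom _).mpr hu, rfl⟩
      · right
        refine ⟨⟨x, hfx⟩, fun he => hx (congrArg Subtype.val he), h.trans ?_⟩
        rw [← Set.ncard_image_of_injective {a : Set.Ici f | IsAtom a ∧ a ≤ ⟨x, hfx⟩}
          Subtype.val_injective]
        apply Set.ncard_le_ncard _ (Set.toFinite _)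
        intro u hu
        exact ⟨⟨u, hu.1.le⟩, ⟨(hatom _).mpr hu.1, hu.2⟩, rfl⟩
  apply Pool.Agent.Helper28.TW.hasPack_of_Ici hat f
  exact hpack.to_packing

end Pool.Agent.Helper85.SC
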