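import Pool.Agent.Helper85.SC.Kernel
import Pool.Agent.Helper50.Sparse.Count
import Pool.Agent.Helper63.HM.Hall
import Pool.Agent.Helper61.Motz.Peel

/-!
# Boxes with parameters in a coatom `Q`, an atom `o` outside of `Q`
-/

set_option autoImplicit false
set_option linter.unusedSectionVars false

namespace Pool.Agent.Helper85.SC

open Pool.Agent.Helper28.BPack Pool.Agent.Helper50.Sparse Finset

theorem rk_atom {L : Type} [Lattice L] [BoundedOrder L] [Finite L] [IsUpperModularLattice L]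
    {x : L} (h : IsAtom x) : rk x = 1 := by
  have := rk_covBy h.bot_covBy
  rw [rk_bot] at this
  omega

theorem atom_of_rk {L : Type} [Lattice L] [BoundedOrder L] [Finite L] [IsUpperModularLattice L]
    {x : L} (h : rk x = 1) : IsAtom x := by
  have h1 : (⊥ : L) ⋖ x := covBy_of_rk bot_le (by rw [rk_bot, h])
  exact bot_covBy_iff.mp h1

variable {L : Type} [Lattice L] [BoundedOrder L] [Fintype L] [IsUpperModularLattice L]
variable {ι : Type} [Fintype ι]

/-- the piece with bottom `F` and the atoms `c ∘ a` -/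
abbrev pcs (c : ι → L) {m : ℕ} (F : L) (a : Fin m → ι) : Pc L := ⟨F, m, fun j => c (a j)⟩

theorem pcs_good {c : ι → L} (hc : ∀ j, IsAtom (c j)) {m : ℕ} {F : L} {a : Fin m → ι}
    (ha : a ∈ good c m F) : (pcs c F a).Good := by
  have h := mem_good.mp ha
  exact good_of_rk (p := pcs c F a) (fun j => hc (a j)) h

/-- independence goes down -/
theorem good_anti {c : ι → L} (hc : ∀ j, IsAtom (c j)) {m : ℕ} {F G : L} (h : F ≤ G)
    {a : Fin m → ι} (ha : a ∈ good c m G) : a ∈ good c m F := by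
  have hg := pcs_good hc ha
  have hg' : (pcs c F a).Good := by
    refine ⟨fun j => hc (a j), fun B j hj hle => hg.2 B j hj (hle.trans ?_)⟩
    exact sup_le_sup_right h _
  have h2 := hg'.rk_val Finset.univ
  rw [Finset.card_univ, Fintype.card_fin] at h2
  rw [mem_good]
  exact h2

open Classical in
/-- the number of free parameters of the box of `F` -/
noncomputable def mF (Q F : L) : ℕ :=
  if IsAtom F ∧ F ≤ Q then rk (⊤ : L) - 3 else rk (⊤ : L) - 2 * rk F

/-- the boxes -/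
abbrev Bx (P : L → Prop) (Q o : L) (c : ι → L) : Type :=
  Σ F : {F : L // P F}, {a : Fin (mF Q F.1) → ι // a ∈ good c (mF Q F.1) (F.1 ⊔ o)}

/-- the elements of a box other than the bottom and, for atoms `x` below `Q`, other than
`x ⊔ o` -/
def Use {P : L → Prop} {Q o : L} {c : ι → L} (v : Bx P Q o c) (q : L) : Prop :=
  (∃ S : Finset (Fin (mF Q v.1.1)), S.Nonempty ∧
    v.1.1 ⊔ S.sup (fun j => c (v.2.1 j)) = q) ∨
  ((IsAtom v.1.1 ∧ v.1.1 ≤ Q) ∧ ∃ S : Finset (Fin (mF Q v.1.1)), S.Nonempty ∧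
    (v.1.1 ⊔ o) ⊔ S.sup (fun j => c (v.2.1 j)) = q)

section

variable {P : L → Prop} {Q o : L} {c : ι → L}

theorem rk_sup_o (ho : IsAtom o) (hoQ : ¬ o ≤ Q) {x : L} (hx : IsAtom x) (hxQ : x ≤ Q) :
    rk (x ⊔ o) = 2 := by
  rw [rk_sup_atom ho (fun h => hoQ (h.trans hxQ)), rk_atom hx]

theorem sup_Q {a : L} (ha : IsAtom a) (hQ : rk Q + 1 = rk (⊤ : L)) (haQ : ¬ a ≤ Q) :
    rk (Q ⊔ a) = rk (⊤ : L) := by
  rw [rk_sup_atom ha haQ, hQ]

theorem mF_pos {F : L} (h : IsAtom F ∧ F ≤ Q) : mF Q F = rk (⊤ : L) - 3 := if_pos h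

theorem mF_neg {F : L} (h : ¬ (IsAtom F ∧ F ≤ Q)) : mF Q F = rk (⊤ : L) - 2 * rk F := if_neg h

theorem card_le_mF {F : L} (S : Finset (Fin (mF Q F))) : S.card ≤ mF Q F := by
  have := Finset.card_le_univ S
  rwa [Fintype.card_fin] at this

/-- the basic facts on used elements -/
theorem use_facts (hr : 4 ≤ rk (⊤ : L)) (hQ : rk Q + 1 = rk (⊤ : L)) (ho : IsAtom o)
    (hoQ : ¬ o ≤ Q) (hc : ∀ j, IsAtom (c j))
    (hP : ∀ F, P F → 2 * rk F < rk (⊤ : L) ∧ 1 ≤ rk F)
    {v : Bx P Q o c} {q : L} (h : Use v q) :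
    ¬ Q ≤ q ∧ rk v.1.1 + rk q ≤ rk (⊤ : L) ∧ rk v.1.1 < rk q ∧ v.1.1 < q := by
  obtain ⟨⟨F, hPF⟩, ⟨a, ha⟩⟩ := v
  obtain ⟨hF2, hF1⟩ := hP F hPF
  change (∃ S : Finset (Fin (mF Q F)), S.Nonempty ∧ F ⊔ S.sup (fun j => c (a j)) = q) ∨
    ((IsAtom F ∧ F ≤ Q) ∧ ∃ S : Finset (Fin (mF Q F)), S.Nonempty ∧
    (F ⊔ o) ⊔ S.sup (fun j => c (a j)) = q) at h
  change ¬ Q ≤ q ∧ rk F + rk q ≤ rk (⊤ : L) ∧ rk F < rk q ∧ F < q
  have hgo := pcs_good hc ha
  have hgF := pcs_good hc (good_anti hc (le_sup_left : F ≤ F ⊔ o) ha)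
  rcases h with ⟨S, hS, hSq⟩ | ⟨hA, S, hS, hSq⟩
  · have h1 : rk q = rk F + S.card := by
      rw [← hSq]
      exact hgF.rk_val S
    have h2 := hS.card_pos
    have h3 := card_le_mF S
    have h4 : F ≤ q := by
      rw [← hSq]
      exact le_sup_left
    have h5 : F < q := lt_of_le_of_ne h4 (fun h => by
      rw [← h] at h1
      omega)
    by_cases hA : IsAtom F ∧ F ≤ Q
    · have h3' := mF_pos hA
      have h6 := rk_atom hA.1
      refine ⟨fun hQq => ?_, by omega, by omega, h5⟩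
      have := rk_mono hQq
      omega
    · have h3' := mF_neg hA
      refine ⟨fun hQq => ?_, by omega, by omega, h5⟩
      have h7 := rk_mono hQq
      have h8 : rk F = 1 := by omega
      have h9 := atom_of_rk h8
      have h10 : ¬ F ≤ Q := fun h => hA ⟨h9, h⟩
      have h11 := rk_mono (sup_le hQq h4)
      rw [sup_Q h9 hQ h10] at h11
      omega
  · have h1 : rk q = rk (F ⊔ o) + S.card := by
      rw [← hSq]
      exact hgo.rk_val S
    have h2 := hS.card_pos
    have h3 := card_le_mF S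
    rw [rk_sup_o ho hoQ hA.1 hA.2] at h1
    have h3' := mF_pos hA
    have h6 := rk_atom hA.1
    have h4 : F ≤ q := by
      rw [← hSq]
      exact le_sup_left.trans le_sup_left
    have h4' : o ≤ q := by
      rw [← hSq]
      exact le_sup_right.trans le_sup_left
    have h5 : F < q := lt_of_le_of_ne h4 (fun h => by
      rw [← h] at h1
      omega)
    refine ⟨fun hQq => ?_, by omega, by omega, h5⟩
    have h11 := rk_mono (sup_le hQq h4')
    rw [sup_Q ho hQ hoQ] at h11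
    omega

open Classical in
/-- the piece of a box -/
noncomputable def pcv (v : Bx P Q o c) : Pc L :=
  if IsAtom v.1.1 ∧ v.1.1 ≤ Q then lft o (pcs c (v.1.1 ⊔ o) v.2.1) v.1.1
  else pcs c v.1.1 v.2.1

theorem pcv_x (v : Bx P Q o c) : (pcv v).x = v.1.1 := by
  unfold pcv
  split_ifs <;> rfl

theorem pcv_n (hr : 4 ≤ rk (⊤ : L)) (v : Bx P Q o c) :
    (pcv v).n = rk (⊤ : L) - 2 * rk v.1.1 := by
  unfold pcv
  split_ifs with h
  · change mF Q v.1.1 + 1 = _
    rw [mF_pos h, rk_atom h.1]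
    omega
  · change mF Q v.1.1 = _
    rw [mF_neg h]

theorem pcv_good (ho : IsAtom o) (hoQ : ¬ o ≤ Q) (hc : ∀ j, IsAtom (c j)) (v : Bx P Q o c) :
    (pcv v).Good := by
  unfold pcv
  split_ifs with h
  · exact lft_good ho (pcs_good hc v.2.2) rfl (fun h1 => hoQ (h1.trans h.2))
  · exact pcs_good hc (good_anti hc (le_sup_left : v.1.1 ≤ v.1.1 ⊔ o) v.2.2)

/-- the elements of the piece above the bottom -/
theorem pcv_val (v : Bx P Q o c) {B : Finset (Fin (pcv v).n)} (hB : B.Nonempty) :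
    Use v ((pcv v).val B) ∨ (IsAtom v.1.1 ∧ v.1.1 ≤ Q ∧ (pcv v).val B = v.1.1 ⊔ o) := by
  classical
  by_cases h : IsAtom v.1.1 ∧ v.1.1 ≤ Q
  · have e : pcv v = lft o (pcs c (v.1.1 ⊔ o) v.2.1) v.1.1 := if_pos h
    have key : ∀ B : Finset (Fin (lft o (pcs c (v.1.1 ⊔ o) v.2.1) v.1.1).n), B.Nonempty →
        Use v ((lft o (pcs c (v.1.1 ⊔ o) v.2.1) v.1.1).val B) ∨
        (IsAtom v.1.1 ∧ v.1.1 ≤ Q ∧
          (lft o (pcs c (v.1.1 ⊔ o) v.2.1) v.1.1).val B = v.1.1 ⊔ o) := by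
      intro B hB
      have h1 := lft_val o (pcs c (v.1.1 ⊔ o) v.2.1) v.1.1 B
      rw [h1]
      by_cases h0 : (0 : Fin (mF Q v.1.1 + 1)) ∈ B
      · rw [if_pos h0]
        rcases (tl B).eq_empty_or_nonempty with ht | ht
        · right
          refine ⟨h.1, h.2, ?_⟩
          rw [ht, Finset.sup_empty, sup_bot_eq]
        · left
          right
          refine ⟨h, tl B, ht, ?_⟩
          rw [sup_assoc]
      · rw [if_neg h0, bot_sup_eq]
        left
        left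
        refine ⟨tl B, ?_, rfl⟩
        obtain ⟨j, hj⟩ := hB
        have hj0 : j ≠ (0 : Fin (mF Q v.1.1 + 1)) := fun h => h0 (h ▸ hj)
        obtain ⟨j', hj'⟩ := Fin.exists_succ_eq_of_ne_zero hj0
        refine ⟨j', ?_⟩
        rw [mem_tl, hj']
        exact hj
    rw [← e] at key
    exact key B hB
  · have e : pcv v = pcs c v.1.1 v.2.1 := if_neg h
    have key : ∀ B : Finset (Fin (pcs c v.1.1 v.2.1).n), B.Nonempty →
        Use v ((pcs c v.1.1 v.2.1).val B) ∨
        (IsAtom v.1.1 ∧ v.1.1 ≤ Q ∧ (pcs c v.1.1 v.2.1).val B = v.1.1 ⊔ o) := by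
      intro B hB
      exact Or.inl (Or.inl ⟨B, hB, rfl⟩)
    rw [← e] at key
    exact key B hB

end

end Pool.Agent.Helper85.SC
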