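import Pool.Agent.Helper85.SC.Load

/-!
# The packing over a frame with many parameters in the coatom `Q`
-/

set_option autoImplicit false
set_option linter.unusedSectionVars false

namespace Pool.Agent.Helper85.SC

open Pool.Agent.Helper28.BPack Pool.Agent.Helper50.Sparse Finset

variable {L : Type} [Lattice L] [BoundedOrder L] [Fintype L] [IsUpperModularLattice L]
variable {ι : Type} [Fintype ι]

section

variable {P : L → Prop} {Q o : L} {c : ι → L}

/-- the number of used elements of a box -/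
theorem card_use (hr : 4 ≤ rk (⊤ : L)) (hP : ∀ F, P F → 2 * rk F < rk (⊤ : L) ∧ 1 ≤ rk F)
    (v : Bx P Q o c) : ({q : L | Use v q}.ncard : ℝ) ≤ 2 ^ (rk (⊤ : L) - 2) := by
  classical
  obtain ⟨⟨F, hPF⟩, ⟨a, ha⟩⟩ := v
  have hF := hP F hPF
  let A : Finset L := (univ : Finset (Finset (Fin (mF Q F)))).image
    (fun S => F ⊔ S.sup (fun j => c (a j)))
  let B : Finset L := (univ : Finset (Finset (Fin (mF Q F)))).image
    (fun S => (F ⊔ o) ⊔ S.sup (fun j => c (a j)))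
  have hAc : A.card ≤ 2 ^ (mF Q F) := by
    refine Finset.card_image_le.trans ?_
    rw [Finset.card_univ, Fintype.card_finset, Fintype.card_fin]
  have hBc : B.card ≤ 2 ^ (mF Q F) := by
    refine Finset.card_image_le.trans ?_
    rw [Finset.card_univ, Fintype.card_finset, Fintype.card_fin]
  have key : {q : L | Use (⟨⟨F, hPF⟩, ⟨a, ha⟩⟩ : Bx P Q o c) q}.ncard ≤
      2 ^ (rk (⊤ : L) - 2) := by
    by_cases hA : IsAtom F ∧ F ≤ Q
    · have h1 : {q : L | Use (⟨⟨F, hPF⟩, ⟨a, ha⟩⟩ : Bx P Q o c) q} ⊆ ((A ∪ B : Finset L) : Set L) := by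
        rintro q (⟨S, _, hS⟩ | ⟨_, S, _, hS⟩)
        · rw [Finset.mem_coe, Finset.mem_union]
          left
          exact Finset.mem_image.mpr ⟨S, Finset.mem_univ _, hS⟩
        · rw [Finset.mem_coe, Finset.mem_union]
          right
          exact Finset.mem_image.mpr ⟨S, Finset.mem_univ _, hS⟩
      have h2 := Set.ncard_le_ncard h1 (Finset.finite_toSet _)
      rw [Set.ncard_coe_finset] at h2
      have h3 := Finset.card_union_le A B
      have h4 : 2 ^ (rk (⊤ : L) - 2) = 2 ^ (mF Q F) + 2 ^ (mF Q F) := by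
        have h5 : rk (⊤ : L) - 2 = mF Q F + 1 := by
          rw [mF_pos hA]
          omega
        rw [h5, pow_succ]
        ring
      rw [h4]
      omega
    · have h1 : {q : L | Use (⟨⟨F, hPF⟩, ⟨a, ha⟩⟩ : Bx P Q o c) q} ⊆ (A : Set L) := by
        rintro q (⟨S, _, hS⟩ | ⟨hA', _⟩)
        · exact Finset.mem_coe.mpr (Finset.mem_image.mpr ⟨S, Finset.mem_univ _, hS⟩)
        · exact absurd hA' hA
      have h2 := Set.ncard_le_ncard h1 (Finset.finite_toSet _)
      rw [Set.ncard_coe_finset] at h2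
      refine h2.trans (hAc.trans (Nat.pow_le_pow_right (by norm_num) ?_))
      rw [mF_neg hA]
      omega
  exact_mod_cast key

/-- a used element is above some parameter -/
theorem use_param {v : Bx P Q o c} {q : L} (h : Use v q) : ∃ j, c j ≤ q := by
  rcases h with ⟨S, ⟨j, hj⟩, hSq⟩ | ⟨_, S, ⟨j, hj⟩, hSq⟩
  · refine ⟨v.2.1 j, ?_⟩
    rw [← hSq]
    exact (Finset.le_sup (f := fun j => c (v.2.1 j)) hj).trans le_sup_right
  · refine ⟨v.2.1 j, ?_⟩
    rw [← hSq]
    exact (Finset.le_sup (f := fun j => c (v.2.1 j)) hj).trans le_sup_right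

/-- a used element is not the join of `o` and an atom below `Q` -/
theorem use_ne_line (hr : 4 ≤ rk (⊤ : L)) (hQ : rk Q + 1 = rk (⊤ : L)) (ho : IsAtom o)
    (hoQ : ¬ o ≤ Q) (hc : ∀ j, IsAtom (c j)) (hcQ : ∀ j, c j ≤ Q)
    (hP : ∀ F, P F → 2 * rk F < rk (⊤ : L) ∧ 1 ≤ rk F) (hPo : ∀ F, P F → F ≠ o)
    {v : Bx P Q o c} {x : L} (hx : IsAtom x) (hxQ : x ≤ Q) : ¬ Use v (x ⊔ o) := by
  intro h
  have hf := use_facts hr hQ ho hoQ hc hP h
  have h2 : rk (x ⊔ o) = 2 := rk_sup_o ho hoQ hx hxQ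
  obtain ⟨⟨F, hPF⟩, ⟨a, ha⟩⟩ := v
  have hfr : rk F < rk (x ⊔ o) := hf.2.2.1
  have hF1 : rk F = 1 := by
    have := (hP F hPF).2
    omega
  have hFa := atom_of_rk hF1
  have hgo := pcs_good hc ha
  rcases h with ⟨S, hS, hSq⟩ | ⟨hA, S, hS, hSq⟩
  · have hSq' : F ⊔ S.sup (fun j => c (a j)) = x ⊔ o := hSq
    by_cases hFQ : F ≤ Q
    · apply hoQ
      have h3 : o ≤ F ⊔ S.sup (fun j => c (a j)) := by
        rw [hSq']
        exact le_sup_right
      exact h3.trans (sup_le hFQ (Finset.sup_le fun j _ => hcQ _))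
    · have h3 : (F ⊔ o) ⊔ S.sup (fun j => c (a j)) = x ⊔ o := by
        rw [← hSq', sup_assoc, sup_comm o, ← sup_assoc, sup_eq_left]
        rw [hSq']
        exact le_sup_right
      have h4 : rk ((F ⊔ o) ⊔ S.sup (fun j => c (a j))) = rk (F ⊔ o) + S.card := hgo.rk_val S
      have h5 : ¬ o ≤ F := by
        intro h
        have h6 : o = F := eq_of_le_of_rk h (by rw [rk_atom ho, hF1])
        exact hPo F hPF h6.symm
      rw [h3, h2, rk_sup_atom ho h5, hF1] at h4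
      have := hS.card_pos
      omega
  · have h4 : rk ((F ⊔ o) ⊔ S.sup (fun j => c (a j))) = rk (F ⊔ o) + S.card := hgo.rk_val S
    have hSq' : (F ⊔ o) ⊔ S.sup (fun j => c (a j)) = x ⊔ o := hSq
    have hA' : IsAtom F ∧ F ≤ Q := hA
    rw [hSq', h2, rk_sup_o ho hoQ hA'.1 hA'.2] at h4
    have := hS.card_pos
    omega

end

open Classical in
/-- **the core**: many parameters in the coatom `Q`. -/
theorem hasPack_core {Q o : L} {c : ι → L} (hr : 4 ≤ rk (⊤ : L)) (hQ : rk Q + 1 = rk (⊤ : L))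
    (ho : IsAtom o) (hoQ : ¬ o ≤ Q) (hc : ∀ j, IsAtom (c j)) (hcQ : ∀ j, c j ≤ Q)
    (p0 : Pc L) (h0 : p0.Good) (hx0 : p0.x = ⊥) (hn0 : p0.n = rk (⊤ : L))
    (hp0o : ∃ J, p0.val J = o)
    (hcan : ∀ x, x ≤ Q → ∀ J, p0.val J = x ⊔ o → ∃ J', p0.val J' = x)
    (hfr : ∀ j J, c j ≤ p0.val J → Q ≤ p0.val J) {t D N : ℕ} (ht1 : 1 ≤ t)
    (hgt : ∀ x : L, ¬ Q ≤ x → (univ.filter (fun j => c j ≤ x)).card ≤ t)
    (hta : ∀ x : L, rk x + 2 ≤ rk (⊤ : L) → at' x ≤ t) (hN : ∀ x : L, x ≠ ⊤ → at' x ≤ N)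
    (hb : ∀ q : L, at' q ≤ t →
      (univ.filter (fun F : L => 1 ≤ rk F ∧ 2 * rk F < rk (⊤ : L) ∧ F < q)).card ≤
        rk (⊤ : L) * t ^ ((rk (⊤ : L) - 1) / 2))
    (htD : t ≤ D) (hD0 : 0 < D) (hnt : D + t ≤ Fintype.card ι)
    (hn : Fintype.card ι ≤ 2 * D) (hND : N ≤ 4 * D)
    (hD : 8 ^ rk (⊤ : L) * rk (⊤ : L) * t ^ ((rk (⊤ : L) + 1) / 2) ≤ D) : HasPack (⊥ : L) := by
  have hDr : (0 : ℝ) < D := by exact_mod_cast hD0
  obtain ⟨P, hPd⟩ : ∃ P : L → Prop, ∀ F, P F ↔ (2 * rk F < rk (⊤ : L) ∧ ∀ J, p0.val J ≠ F) :=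
    ⟨fun F => 2 * rk F < rk (⊤ : L) ∧ ∀ J, p0.val J ≠ F, fun F => Iff.rfl⟩
  have hP : ∀ F, P F → 2 * rk F < rk (⊤ : L) ∧ 1 ≤ rk F := by
    intro F hF
    obtain ⟨h1, h2⟩ := (hPd F).mp hF
    refine ⟨h1, ?_⟩
    have h3 : F ≠ ⊥ := by
      intro h
      apply h2 ∅
      rw [Pc.val_empty, hx0, h]
    have h4 := rk_lt (bot_lt_iff_ne_bot.mpr h3)
    omega
  have hPo : ∀ F, P F → F ≠ o := by
    intro F hF h
    obtain ⟨_, h2⟩ := (hPd F).mp hF
    obtain ⟨J, hJ⟩ := hp0o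
    exact h2 J (hJ.trans h.symm)
  have hw0 : ∀ v : Bx P Q o c, 0 ≤ wt D v := fun v => by
    unfold wt
    positivity
  have hload : ∀ q : L, ∑ᶠ u ∈ {u : Bx P Q o c | Use u q}, wt D u ≤
      1 / 2 ^ (rk (⊤ : L) - 2) := by
    intro q
    have h4 := load_le (P := P) hr hQ ho hoQ hc hP ht1 hgt hta hN hb htD hD0 hn hND hD q
    rw [finsum_mem_def, finsum_eq_sum_of_fintype]
    refine le_trans (le_of_eq ?_) h4
    apply Finset.sum_congr rfl
    intro u _
    rw [Set.indicator_apply]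
    rfl
  have hDg : ∀ x : L, o ≤ x → x ≠ ⊤ → D ≤ (univ.filter (fun j : ι => ¬ c j ≤ x)).card := by
    intro x hox hx
    have hQx : ¬ Q ≤ x := by
      intro h
      apply hx
      have h1 := rk_mono (sup_le h hox)
      rw [sup_Q ho hQ hoQ] at h1
      exact eq_of_le_of_rk le_top h1
    have h1 := hgt x hQx
    have h2 := Finset.card_filter_add_card_filter_not (s := (univ : Finset ι))
      (fun j : ι => c j ≤ x)
    rw [Finset.card_univ] at h2
    omega
  obtain ⟨g, hg1, hg2, hg3⟩ := Pool.Agent.Helper63.HM.rainbow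
    (V := Bx P Q o c) (Q := L) (X := {F : L // P F})
    Use (fun v => v.1) (wt D) hw0
    (by
      intro v _
      rw [finsum_mem_eq_finite_toFinset_sum _ (Set.toFinite {q | Use v q})]
      have h5 := Finset.sum_le_card_nsmul (Set.toFinite {q | Use v q}).toFinset
        (fun q => ∑ᶠ u ∈ {u : Bx P Q o c | Use u q}, wt D u) (1 / 2 ^ (rk (⊤ : L) - 2)) (by
          intro q _
          exact hload q)
      refine h5.trans ?_
      rw [← Set.ncard_eq_toFinset_card, nsmul_eq_mul]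
      have h6 := card_use hr hP v
      have h7 : (0 : ℝ) < 2 ^ (rk (⊤ : L) - 2) := by positivity
      rw [mul_one_div, div_le_one h7]
      exact h6)
    (by
      intro x
      have h4 : {v : Bx P Q o c | v.1 = x} = Set.range (fun a => (⟨x, a⟩ : Bx P Q o c)) := by
        ext v
        constructor
        · intro h
          have h' : v.1 = x := h
          subst h'
          exact ⟨v.2, rfl⟩
        · rintro ⟨a, rfl⟩
          rfl
      change 1 ≤ ∑ᶠ v ∈ {v : Bx P Q o c | v.1 = x}, wt D v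
      rw [h4, finsum_mem_range (fun a b h => by
        have := Sigma.mk.inj_iff.mp h
        exact eq_of_heq this.2), finsum_eq_sum_of_fintype]
      have h5 : ∀ a : {a : Fin (mF Q x.1) → ι // a ∈ good c (mF Q x.1) (x.1 ⊔ o)},
          wt D (⟨x, a⟩ : Bx P Q o c) = 1 / (D : ℝ) ^ (mF Q x.1) := fun a => rfl
      rw [Finset.sum_congr rfl (fun a _ => h5 a), Finset.sum_const, nsmul_eq_mul, Finset.card_univ,
        Fintype.card_coe, mul_one_div, one_le_div (by positivity)]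
      have h6 := card_good c hc D o hDg (mF Q x.1) (x.1 ⊔ o) le_sup_right (by
        have h7 := hP x.1 x.2
        have h8 := rk_sup_atom_le (x := x.1) ho
        by_cases hA : IsAtom x.1 ∧ x.1 ≤ Q
        · rw [mF_pos hA]
          have := rk_atom hA.1
          omega
        · rw [mF_neg hA]
          omega)
      exact_mod_cast h6)
  let p : L → Pc L := fun F => if hF : P F then pcv (g ⟨F, hF⟩) else single F
  have hp : ∀ F (hF : P F), p F = pcv (g ⟨F, hF⟩) := fun F hF => dif_pos hF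
  have hbot : ∀ F (hF : P F), (g ⟨F, hF⟩).1.1 = F := fun F hF => by
    have := hg1 ⟨F, hF⟩
    exact congrArg Subtype.val this
  apply hasPack_of_frame p0 h0 hn0 p
  · intro F h1 h2
    rw [hp F ((hPd F).mpr ⟨h1, h2⟩)]
    exact pcv_good ho hoQ hc _
  · intro F h1 h2
    rw [hp F ((hPd F).mpr ⟨h1, h2⟩), pcv_x]
    exact hbot F ((hPd F).mpr ⟨h1, h2⟩)
  · intro F h1 h2
    rw [hp F ((hPd F).mpr ⟨h1, h2⟩), pcv_n hr, hbot F ((hPd F).mpr ⟨h1, h2⟩)]
  · intro F h1 h2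
    have hPF := (hPd F).mpr ⟨h1, h2⟩
    rw [hp F hPF]
    intro B hB J hJ
    rcases pcv_val _ hB with h | ⟨h3, h4, h5⟩
    · obtain ⟨j, hj⟩ := use_param h
      have h6 := use_facts hr hQ ho hoQ hc hP h
      apply h6.1
      rw [← hJ] at hj ⊢
      exact hfr j J hj
    · rw [hbot F hPF] at h4 h5
      obtain ⟨J', hJ'⟩ := hcan F h4 J (hJ.trans h5)
      exact h2 J' hJ'
  · intro F F' h1 h2 h1' h2' hne
    have hPF := (hPd F).mpr ⟨h1, h2⟩
    have hPF' := (hPd F').mpr ⟨h1', h2'⟩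
    rw [hp F hPF, hp F' hPF']
    intro B B' hB hB' h
    rcases pcv_val _ hB with h3 | ⟨h3, h4, h5⟩
    · rcases pcv_val _ hB' with h3' | ⟨h3', h4', h5'⟩
      · have h6 : (⟨F, hPF⟩ : {F : L // P F}) ≠ ⟨F', hPF'⟩ := fun h => hne
          (congrArg Subtype.val h)
        rw [← h] at h3'
        exact hg3 _ _ h6 _ ⟨h3, h3'⟩
      · rw [h, h5'] at h3
        exact use_ne_line hr hQ ho hoQ hc hcQ hP hPo h3' h4' h3
    · rcases pcv_val _ hB' with h3' | ⟨h3', h4', h5'⟩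
      · rw [← h, h5] at h3'
        exact use_ne_line hr hQ ho hoQ hc hcQ hP hPo h3 h4 h3'
      · rw [h5, h5', hbot F hPF, hbot F' hPF'] at h
        rw [hbot F hPF] at h4
        rw [hbot F' hPF'] at h4'
        exact hne (Pool.Agent.Helper61.Motz.cancel h4 h4' ho hoQ h)

end Pool.Agent.Helper85.SC
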