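import Pool.Agent.Helper50.Sparse.Kernel

/-!
# Boolean packings from a piece over the bottom and a family of boxes avoiding it
-/

set_option autoImplicit false
set_option linter.unusedSectionVars false

namespace Pool.Agent.Helper85.SC

open Pool.Agent.Helper28.BPack Pool.Agent.Helper50.Sparse

variable {L : Type} [Lattice L] [BoundedOrder L] [Finite L] [IsUpperModularLattice L]

/-- A piece `p0` over the bottom, and boxes for the elements of small rank outside of it, whose
elements above the bottoms are outside of it and all different. -/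
theorem hasPack_of_frame (p0 : Pc L) (h0 : p0.Good) (hn0 : p0.n = rk (⊤ : L))
    (p : L → Pc L)
    (hg : ∀ F, 2 * rk F < rk (⊤ : L) → (∀ J, p0.val J ≠ F) → (p F).Good)
    (hx : ∀ F, 2 * rk F < rk (⊤ : L) → (∀ J, p0.val J ≠ F) → (p F).x = F)
    (hn : ∀ F, 2 * rk F < rk (⊤ : L) → (∀ J, p0.val J ≠ F) →
      (p F).n = rk (⊤ : L) - 2 * rk F)
    (hI : ∀ F, 2 * rk F < rk (⊤ : L) → (∀ J, p0.val J ≠ F) →
      ∀ B, B.Nonempty → ∀ J, p0.val J ≠ (p F).val B)
    (hd : ∀ F F', 2 * rk F < rk (⊤ : L) → (∀ J, p0.val J ≠ F) → 2 * rk F' < rk (⊤ : L) →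
      (∀ J, p0.val J ≠ F') → F ≠ F' →
      ∀ B B', B.Nonempty → B'.Nonempty → (p F).val B ≠ (p F').val B') :
    HasPack (⊥ : L) := by
  classical
  obtain ⟨K, hK⟩ := exists_kernel
    (fun x y : L => (2 * rk x < rk (⊤ : L) ∧ ∀ J, p0.val J ≠ x) ∧
      ∃ B, B.Nonempty ∧ (p x).val B = y) (by
      rintro x y ⟨⟨hs, ho⟩, B, hB, rfl⟩
      have h1 : x ≤ (p x).val B := by
        conv_lhs => rw [← hx x hs ho]
        exact (p x).le_val B
      have h2 := (hg x hs ho).rk_val B
      rw [hx x hs ho] at h2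
      have h3 : 0 < B.card := hB.card_pos
      refine lt_of_le_of_ne h1 ?_
      intro h
      rw [← h] at h2
      omega)
  let κ := {F : L // (2 * rk F < rk (⊤ : L) ∧ ∀ J, p0.val J ≠ F) ∧ K F}
  let P : Option κ → Pc L := fun o => match o with
    | none => p0
    | some i => p i.1
  refine HasPack.assemble (f := ⊥) (ι := Option κ) P ?_ (fun i => bot_le) ?_ ?_ ?_
  · rintro (_ | i)
    · exact h0
    · exact hg i.1 i.2.1.1 i.2.1.2
  · rintro (_ | i)
    · have h1 := h0.rk_val Finset.univ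
      rw [Finset.card_univ, Fintype.card_fin] at h1
      change rk (⊤ : L) + rk (⊥ : L) ≤ rk p0.x + rk (p0.val Finset.univ)
      rw [rk_bot]
      omega
    · have h1 := (hg i.1 i.2.1.1 i.2.1.2).rk_val Finset.univ
      rw [hx i.1 i.2.1.1 i.2.1.2, Finset.card_univ, Fintype.card_fin] at h1
      change rk (⊤ : L) + rk (⊥ : L) ≤ rk (p i.1).x + rk ((p i.1).val Finset.univ)
      rw [h1, hx i.1 i.2.1.1 i.2.1.2, rk_bot]
      have h2 := i.2.1
      have h3 := hn i.1 i.2.1.1 i.2.1.2
      omega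
  · have hmix : ∀ (J : Finset (Fin p0.n)) (i : κ) (B : Finset (Fin (p i.1).n)),
        p0.val J ≠ (p i.1).val B := by
      intro J i B
      rcases B.eq_empty_or_nonempty with hB | hB
      · rw [hB, Pc.val_empty, hx i.1 i.2.1.1 i.2.1.2]
        exact i.2.1.2 J
      · exact hI i.1 i.2.1.1 i.2.1.2 B hB J
    rintro (_ | i) B (_ | i') B' h
    · exact ⟨rfl, heq_of_eq (h0.inj h)⟩
    · exact absurd h (hmix B i' B')
    · exact absurd h.symm (hmix B' i B)
    · obtain ⟨F, ⟨hF, hFo⟩, hKF⟩ := i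
      obtain ⟨F', ⟨hF', hFo'⟩, hKF'⟩ := i'
      change (p F).val B = (p F').val B' at h
      by_cases hFF : F = F'
      · subst hFF
        exact ⟨rfl, heq_of_eq ((hg F hF hFo).inj h)⟩
      · exfalso
        rcases B.eq_empty_or_nonempty with hB | hB
        · rcases B'.eq_empty_or_nonempty with hB' | hB'
          · rw [hB, hB', Pc.val_empty, Pc.val_empty, hx F hF hFo, hx F' hF' hFo'] at h
            exact hFF h
          · rw [hB, Pc.val_empty, hx F hF hFo] at h
            exact (hK F).mp hKF ⟨F', hKF', ⟨hF', hFo'⟩, B', hB', h.symm⟩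
        · rcases B'.eq_empty_or_nonempty with hB' | hB'
          · rw [hB', Pc.val_empty, hx F' hF' hFo'] at h
            exact (hK F').mp hKF' ⟨F, hKF, ⟨hF, hFo⟩, B, hB, h⟩
          · exact hd F F' hF hFo hF' hFo' hFF B B' hB hB' h
  · intro z _ hz
    rw [rk_bot, add_zero] at hz
    by_cases ho : ∃ J, p0.val J = z
    · obtain ⟨J, hJ⟩ := ho
      exact ⟨none, J, hJ⟩
    · have ho' : ∀ J, p0.val J ≠ z := fun J hJ => ho ⟨J, hJ⟩
      by_cases h : K z
      · refine ⟨some ⟨z, ⟨hz, ho'⟩, h⟩, (∅ : Finset (Fin (p z).n)), ?_⟩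
        change (p z).val ∅ = z
        rw [Pc.val_empty, hx z hz ho']
      · have h1 : ∃ x, K x ∧ ((2 * rk x < rk (⊤ : L) ∧ ∀ J, p0.val J ≠ x) ∧
            ∃ B, B.Nonempty ∧ (p x).val B = z) := by
          by_contra hc
          exact h ((hK z).mpr hc)
        obtain ⟨x, hxK, hxs, B, _, hB⟩ := h1
        exact ⟨some ⟨x, hxs, hxK⟩, B, hB⟩

end Pool.Agent.Helper85.SC
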