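import Pool.Agent.Helper85.SC.Base

/-!
# The load of an element
-/

set_option autoImplicit false
set_option linter.unusedSectionVars false

namespace Pool.Agent.Helper85.SC

open Pool.Agent.Helper28.BPack Pool.Agent.Helper50.Sparse Finset

variable {L : Type} [Lattice L] [BoundedOrder L] [Fintype L] [IsUpperModularLattice L]
variable {ι : Type} [Fintype ι]

open Classical in
/-- the number of atoms below an element -/
noncomputable def at' (x : L) : ℕ := (univ.filter (fun a : L => IsAtom a ∧ a ≤ x)).card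

open Classical in
/-- the sequences over `G` some part of which spans `q` -/
noncomputable def hits (c : ι → L) (m : ℕ) (G q : L) : Finset (Fin m → ι) :=
  (good c m G).filter (fun a => ∃ S : Finset (Fin m), S.Nonempty ∧
    G ⊔ S.sup (fun j => c (a j)) = q)

open Classical in
theorem hits_le {c : ι → L} (hc : ∀ j, IsAtom (c j)) {m : ℕ} {G q : L} {t D e : ℕ}
    (hg : (univ.filter (fun j => c j ≤ q)).card ≤ t) (htD : t ≤ D) (hD : 0 < D)
    (hn : Fintype.card ι ≤ 2 * D) (he : rk G + e ≤ rk q) :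
    ((hits c m G q).card : ℝ) ≤ 4 ^ m * ((t : ℝ) / D) ^ e * (D : ℝ) ^ m := by
  have h1 := card_hit c hc m G q
  set d := rk q - rk G with hd
  have hed : e ≤ d := by omega
  have hDr : (0 : ℝ) < D := by exact_mod_cast hD
  by_cases hdm : d ≤ m
  · have h2 : ((hits c m G q).card : ℝ) ≤ (m.choose d : ℝ) *
        (((univ.filter (fun j => c j ≤ q)).card : ℝ) ^ d * (Fintype.card ι : ℝ) ^ (m - d)) := by
      unfold hits
      exact_mod_cast h1
    have h3 : (m.choose d : ℝ) ≤ 2 ^ m := by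
      exact_mod_cast Nat.choose_le_two_pow m d
    have h4 : ((univ.filter (fun j => c j ≤ q)).card : ℝ) ^ d ≤ (t : ℝ) ^ d :=
      pow_le_pow_left₀ (by positivity) (by exact_mod_cast hg) d
    have h5 : (Fintype.card ι : ℝ) ^ (m - d) ≤ (2 * D : ℝ) ^ (m - d) :=
      pow_le_pow_left₀ (by positivity) (by exact_mod_cast hn) _
    have h6 : ((t : ℝ) / D) ^ d ≤ ((t : ℝ) / D) ^ e := by
      apply pow_le_pow_of_le_one (by positivity) _ hed
      rw [div_le_one hDr]
      exact_mod_cast htD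
    have h7 : (2 : ℝ) ^ (m - d) ≤ 2 ^ m := pow_le_pow_right₀ (by norm_num) (by omega)
    calc ((hits c m G q).card : ℝ) ≤ (m.choose d : ℝ) *
          (((univ.filter (fun j => c j ≤ q)).card : ℝ) ^ d *
          (Fintype.card ι : ℝ) ^ (m - d)) := h2
      _ ≤ 2 ^ m * ((t : ℝ) ^ d * (2 * D : ℝ) ^ (m - d)) := by
          apply mul_le_mul h3 _ (by positivity) (by positivity)
          exact mul_le_mul h4 h5 (by positivity) (by positivity)
      _ = 2 ^ m * 2 ^ (m - d) * ((t : ℝ) / D) ^ d * (D : ℝ) ^ m := by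
          have h8 : (D : ℝ) ^ m = (D : ℝ) ^ d * (D : ℝ) ^ (m - d) := by
            rw [← pow_add]
            congr 1
            omega
          rw [h8, div_pow, mul_pow]
          field_simp
      _ ≤ 2 ^ m * 2 ^ m * ((t : ℝ) / D) ^ e * (D : ℝ) ^ m := by
          apply mul_le_mul_of_nonneg_right _ (by positivity)
          apply mul_le_mul _ h6 (by positivity) (by positivity)
          exact mul_le_mul_of_nonneg_left h7 (by positivity)
      _ = 4 ^ m * ((t : ℝ) / D) ^ e * (D : ℝ) ^ m := by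
          rw [← mul_pow]
          norm_num
  · have h2 : m.choose d = 0 := Nat.choose_eq_zero_of_lt (by omega)
    rw [h2, zero_mul] at h1
    have h3 : (hits c m G q).card = 0 := Nat.le_zero.mp h1
    rw [h3, Nat.cast_zero]
    positivity

theorem hits_rk {c : ι → L} (hc : ∀ j, IsAtom (c j)) {m : ℕ} {G q : L} {a : Fin m → ι}
    (ha : a ∈ hits c m G q) : rk G + 1 ≤ rk q := by
  classical
  unfold hits at ha
  rw [Finset.mem_filter] at ha
  obtain ⟨h1, S, hS, hSq⟩ := ha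
  have h2 := (pcs_good hc h1).rk_val S
  have h3 : rk q = rk G + S.card := by
    rw [← hSq]
    exact h2
  have := hS.card_pos
  omega

open Classical in
theorem hits_one {c : ι → L} (hc : ∀ j, IsAtom (c j)) {m : ℕ} {G q : L} {t D : ℕ}
    (hg : (univ.filter (fun j => c j ≤ q)).card ≤ t) (htD : t ≤ D) (hD : 0 < D)
    (hn : Fintype.card ι ≤ 2 * D) :
    ((hits c m G q).card : ℝ) ≤ 4 ^ m * ((t : ℝ) / D) * (D : ℝ) ^ m := by
  by_cases h : rk G + 1 ≤ rk q
  · have := hits_le hc hg htD hD hn h (m := m)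
    rwa [pow_one] at this
  · have h1 : hits c m G q = ∅ := by
      rw [Finset.eq_empty_iff_forall_notMem]
      intro a ha
      exact h (hits_rk hc ha)
    rw [h1]
    simp only [Finset.card_empty, Nat.cast_zero]
    positivity

section

variable {P : L → Prop} {Q o : L} {c : ι → L}

/-- weights -/
noncomputable def wt (D : ℕ) (v : Bx P Q o c) : ℝ := 1 / (D : ℝ) ^ (mF Q v.1.1)

open Classical in
/-- the share of the boxes with bottom `F` -/
noncomputable def shr (Q o : L) (c : ι → L) (D : ℕ) (q F : L) : ℝ :=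
  (((good c (mF Q F) (F ⊔ o)).filter (fun a =>
    (∃ S : Finset (Fin (mF Q F)), S.Nonempty ∧ F ⊔ S.sup (fun j => c (a j)) = q) ∨
    ((IsAtom F ∧ F ≤ Q) ∧ ∃ S : Finset (Fin (mF Q F)), S.Nonempty ∧
      (F ⊔ o) ⊔ S.sup (fun j => c (a j)) = q))).card : ℝ) / (D : ℝ) ^ (mF Q F)

open Classical in
theorem sum_eq_shr (D : ℕ) (q : L) :
    ∑ v : Bx P Q o c, (if Use v q then wt D v else 0) =
      ∑ F ∈ univ.filter (fun F : L => P F), shr Q o c D q F := by
  rw [Fintype.sum_sigma]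
  have h1 : ∀ F : {F : L // P F},
      ∑ a : {a : Fin (mF Q F.1) → ι // a ∈ good c (mF Q F.1) (F.1 ⊔ o)},
        (if Use (⟨F, a⟩ : Bx P Q o c) q then wt D (⟨F, a⟩ : Bx P Q o c) else 0) =
      shr Q o c D q F.1 := by
    intro F
    have e2 : ∑ a : {a : Fin (mF Q F.1) → ι // a ∈ good c (mF Q F.1) (F.1 ⊔ o)},
        (if Use (⟨F, a⟩ : Bx P Q o c) q then wt D (⟨F, a⟩ : Bx P Q o c) else 0) =
        ∑ a ∈ good c (mF Q F.1) (F.1 ⊔ o),
          (if ((∃ S : Finset (Fin (mF Q F.1)), S.Nonempty ∧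
              F.1 ⊔ S.sup (fun j => c (a j)) = q) ∨
            ((IsAtom F.1 ∧ F.1 ≤ Q) ∧ ∃ S : Finset (Fin (mF Q F.1)), S.Nonempty ∧
              (F.1 ⊔ o) ⊔ S.sup (fun j => c (a j)) = q)) then
            1 / (D : ℝ) ^ (mF Q F.1) else 0) := by
      refine Eq.trans ?_ (Finset.sum_coe_sort (good c (mF Q F.1) (F.1 ⊔ o))
        (fun a : Fin (mF Q F.1) → ι =>
          if ((∃ S : Finset (Fin (mF Q F.1)), S.Nonempty ∧
              F.1 ⊔ S.sup (fun j => c (a j)) = q) ∨
            ((IsAtom F.1 ∧ F.1 ≤ Q) ∧ ∃ S : Finset (Fin (mF Q F.1)), S.Nonempty ∧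
              (F.1 ⊔ o) ⊔ S.sup (fun j => c (a j)) = q)) then
            1 / (D : ℝ) ^ (mF Q F.1) else 0))
      apply Finset.sum_congr rfl
      intro a _
      by_cases hu : Use (⟨F, a⟩ : Bx P Q o c) q
      · rw [if_pos hu, if_pos (show (∃ S : Finset (Fin (mF Q F.1)), S.Nonempty ∧
            F.1 ⊔ S.sup (fun j => c (a.1 j)) = q) ∨
          ((IsAtom F.1 ∧ F.1 ≤ Q) ∧ ∃ S : Finset (Fin (mF Q F.1)), S.Nonempty ∧
            (F.1 ⊔ o) ⊔ S.sup (fun j => c (a.1 j)) = q) from hu), wt]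
      · rw [if_neg hu, if_neg (show ¬ ((∃ S : Finset (Fin (mF Q F.1)), S.Nonempty ∧
            F.1 ⊔ S.sup (fun j => c (a.1 j)) = q) ∨
          ((IsAtom F.1 ∧ F.1 ≤ Q) ∧ ∃ S : Finset (Fin (mF Q F.1)), S.Nonempty ∧
            (F.1 ⊔ o) ⊔ S.sup (fun j => c (a.1 j)) = q)) from hu)]
    rw [e2, ← Finset.sum_filter, Finset.sum_const, nsmul_eq_mul, shr, mul_one_div]
  rw [Finset.sum_congr rfl (fun F _ => h1 F)]
  symm
  apply Finset.sum_subtype
  intro x
  simp

theorem shr_nonneg (D : ℕ) (q F : L) : 0 ≤ shr Q o c D q F := by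
  unfold shr
  positivity

open Classical in
/-- the share is at most the shares of the two kinds of hits -/
theorem shr_le_hits (hc : ∀ j, IsAtom (c j)) {D : ℕ} (q F : L) :
    shr Q o c D q F ≤ (((hits c (mF Q F) F q).card : ℝ) +
      (if IsAtom F ∧ F ≤ Q then ((hits c (mF Q F) (F ⊔ o) q).card : ℝ) else 0)) /
        (D : ℝ) ^ (mF Q F) := by
  unfold shr
  apply div_le_div_of_nonneg_right _ (by positivity)
  by_cases hA : IsAtom F ∧ F ≤ Q
  · rw [if_pos hA]
    have h1 : ((good c (mF Q F) (F ⊔ o)).filter (fun a =>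
        (∃ S : Finset (Fin (mF Q F)), S.Nonempty ∧ F ⊔ S.sup (fun j => c (a j)) = q) ∨
        ((IsAtom F ∧ F ≤ Q) ∧ ∃ S : Finset (Fin (mF Q F)), S.Nonempty ∧
        (F ⊔ o) ⊔ S.sup (fun j => c (a j)) = q))) ⊆
        hits c (mF Q F) F q ∪ hits c (mF Q F) (F ⊔ o) q := by
      intro a ha
      rw [Finset.mem_filter] at ha
      rw [Finset.mem_union]
      rcases ha.2 with h | h
      · left
        unfold hits
        rw [Finset.mem_filter]
        exact ⟨good_anti hc le_sup_left ha.1, h⟩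
      · right
        unfold hits
        rw [Finset.mem_filter]
        exact ⟨ha.1, h.2⟩
    have h2 := (Finset.card_le_card h1).trans (Finset.card_union_le _ _)
    exact_mod_cast h2
  · rw [if_neg hA, add_zero]
    have h1 : ((good c (mF Q F) (F ⊔ o)).filter (fun a =>
        (∃ S : Finset (Fin (mF Q F)), S.Nonempty ∧ F ⊔ S.sup (fun j => c (a j)) = q) ∨
        ((IsAtom F ∧ F ≤ Q) ∧ ∃ S : Finset (Fin (mF Q F)), S.Nonempty ∧
        (F ⊔ o) ⊔ S.sup (fun j => c (a j)) = q))) ⊆ hits c (mF Q F) F q := by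
      intro a ha
      rw [Finset.mem_filter] at ha
      rcases ha.2 with h | h
      · unfold hits
        rw [Finset.mem_filter]
        exact ⟨good_anti hc le_sup_left ha.1, h⟩
      · exact absurd h.1 hA
    exact_mod_cast Finset.card_le_card h1

open Classical in
/-- the share of one bottom -/
theorem shr_one (hr : 4 ≤ rk (⊤ : L)) (hc : ∀ j, IsAtom (c j)) {t D : ℕ} {q F : L}
    (hF1 : 1 ≤ rk F)
    (hg : (univ.filter (fun j => c j ≤ q)).card ≤ t) (htD : t ≤ D) (hD : 0 < D)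
    (hn : Fintype.card ι ≤ 2 * D) :
    shr Q o c D q F ≤ 4 ^ (rk (⊤ : L) - 2) * ((t : ℝ) / D) := by
  have hDr : (0 : ℝ) < D := by exact_mod_cast hD
  have h1 := shr_le_hits (o := o) (Q := Q) hc (D := D) q F
  have h2 := hits_one hc hg htD hD hn (m := mF Q F) (G := F)
  have h3 := hits_one hc hg htD hD hn (m := mF Q F) (G := F ⊔ o)
  refine h1.trans ?_
  rw [div_le_iff₀ (by positivity)]
  by_cases hA : IsAtom F ∧ F ≤ Q
  · rw [if_pos hA]
    have h4 : (4 : ℝ) ^ (rk (⊤ : L) - 2) = 4 * 4 ^ (mF Q F) := by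
      have h5 : rk (⊤ : L) - 2 = mF Q F + 1 := by
        rw [mF_pos hA]
        omega
      rw [h5, pow_succ]
      ring
    rw [h4]
    have h6 : (0 : ℝ) ≤ 4 ^ (mF Q F) * ((t : ℝ) / D) * (D : ℝ) ^ (mF Q F) := by positivity
    have h7 : 4 * 4 ^ (mF Q F) * ((t : ℝ) / D) * (D : ℝ) ^ (mF Q F) =
        4 * (4 ^ (mF Q F) * ((t : ℝ) / D) * (D : ℝ) ^ (mF Q F)) := by ring
    rw [h7]
    linarith
  · rw [if_neg hA, add_zero]
    refine h2.trans ?_
    apply mul_le_mul_of_nonneg_right _ (by positivity)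
    apply mul_le_mul_of_nonneg_right _ (by positivity)
    apply pow_le_pow_right₀ (by norm_num)
    rw [mF_neg hA]
    omega

open Classical in
/-- the share of an atom outside of `Q` at a coatom -/
theorem shr_two (hr : 4 ≤ rk (⊤ : L)) (hc : ∀ j, IsAtom (c j)) {t D : ℕ} {q F : L}
    (hF1 : rk F = 1) (hFQ : ¬ F ≤ Q) (hq : rk q + 1 = rk (⊤ : L))
    (hg : (univ.filter (fun j => c j ≤ q)).card ≤ t) (htD : t ≤ D) (hD : 0 < D)
    (hn : Fintype.card ι ≤ 2 * D) :
    shr Q o c D q F ≤ 4 ^ (rk (⊤ : L) - 2) * ((t : ℝ) / D) ^ 2 := by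
  have hDr : (0 : ℝ) < D := by exact_mod_cast hD
  have h1 := shr_le_hits (o := o) (Q := Q) hc (D := D) q F
  have h2 := hits_le hc hg htD hD hn (m := mF Q F) (G := F) (e := 2) (by omega)
  have hA : ¬ (IsAtom F ∧ F ≤ Q) := fun h => hFQ h.2
  refine h1.trans ?_
  rw [div_le_iff₀ (by positivity), if_neg hA, add_zero]
  refine h2.trans ?_
  apply mul_le_mul_of_nonneg_right _ (by positivity)
  apply mul_le_mul_of_nonneg_right _ (by positivity)
  apply pow_le_pow_right₀ (by norm_num)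
  rw [mF_neg hA]
  omega

open Classical in
/-- bottoms which do not use `q` have share zero -/
theorem shr_zero (hr : 4 ≤ rk (⊤ : L)) (hQ : rk Q + 1 = rk (⊤ : L)) (ho : IsAtom o)
    (hoQ : ¬ o ≤ Q) (hc : ∀ j, IsAtom (c j)) {D : ℕ} {q F : L}
    (hF : 2 * rk F < rk (⊤ : L) ∧ 1 ≤ rk F)
    (h : ¬ (¬ Q ≤ q ∧ rk F + rk q ≤ rk (⊤ : L) ∧ F < q)) : shr Q o c D q F = 0 := by
  unfold shr
  rw [div_eq_zero_iff]
  left
  rw [Nat.cast_eq_zero, Finset.card_eq_zero, Finset.eq_empty_iff_forall_notMem]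
  intro a ha
  rw [Finset.mem_filter] at ha
  let P' : L → Prop := fun F => 2 * rk F < rk (⊤ : L) ∧ 1 ≤ rk F
  let v : Bx P' Q o c := ⟨⟨F, hF⟩, ⟨a, ha.1⟩⟩
  have hu : Use v q := ha.2
  have h1 := use_facts hr hQ ho hoQ hc (fun F hF => hF) hu
  exact h ⟨h1.1, h1.2.1, h1.2.2.2⟩

open Classical in
/-- **the load of an element** -/
theorem load_le (hr : 4 ≤ rk (⊤ : L)) (hQ : rk Q + 1 = rk (⊤ : L)) (ho : IsAtom o)
    (hoQ : ¬ o ≤ Q) (hc : ∀ j, IsAtom (c j))
    (hP : ∀ F, P F → 2 * rk F < rk (⊤ : L) ∧ 1 ≤ rk F) {t D N : ℕ} (ht1 : 1 ≤ t)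
    (hgt : ∀ x : L, ¬ Q ≤ x → (univ.filter (fun j => c j ≤ x)).card ≤ t)
    (hta : ∀ x : L, rk x + 2 ≤ rk (⊤ : L) → at' x ≤ t) (hN : ∀ x : L, x ≠ ⊤ → at' x ≤ N)
    (hb : ∀ q : L, at' q ≤ t →
      (univ.filter (fun F : L => 1 ≤ rk F ∧ 2 * rk F < rk (⊤ : L) ∧ F < q)).card ≤
        rk (⊤ : L) * t ^ ((rk (⊤ : L) - 1) / 2))
    (htD : t ≤ D) (hD0 : 0 < D) (hn : Fintype.card ι ≤ 2 * D) (hND : N ≤ 4 * D)
    (hD : 8 ^ rk (⊤ : L) * rk (⊤ : L) * t ^ ((rk (⊤ : L) + 1) / 2) ≤ D) (q : L) :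
    ∑ v : Bx P Q o c, (if Use v q then wt D v else 0) ≤ 1 / 2 ^ (rk (⊤ : L) - 2) := by
  rw [sum_eq_shr]
  set r := rk (⊤ : L) with hrr
  have hDr : (0 : ℝ) < D := by exact_mod_cast hD0
  have htr : (1 : ℝ) ≤ t := by exact_mod_cast ht1
  have h8 : (8 : ℝ) ^ r = 64 * 8 ^ (r - 2) := by
    have : r = (r - 2) + 2 := by omega
    conv_lhs => rw [this, pow_add]
    ring
  have h24 : (2 : ℝ) ^ (r - 2) * 4 ^ (r - 2) = 8 ^ (r - 2) := by
    rw [← mul_pow]
    norm_num
  have hDR : 64 * 8 ^ (r - 2) * (r : ℝ) * (t : ℝ) ^ ((r + 1) / 2) ≤ D := by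
    rw [← h8]
    exact_mod_cast hD
  have h80 : (0 : ℝ) < 8 ^ (r - 2) := by positivity
  have hr4 : (4 : ℝ) ≤ r := by exact_mod_cast hr
  by_cases hq : ¬ Q ≤ q ∧ rk q < r
  swap
  · rw [Finset.sum_eq_zero]
    · positivity
    · intro F hF
      rw [Finset.mem_filter] at hF
      apply shr_zero hr hQ ho hoQ hc (hP F hF.2)
      rintro ⟨h1, h2, h3⟩
      have := (hP F hF.2).2
      exact hq ⟨h1, by omega⟩
  obtain ⟨hQq, hqr⟩ := hq
  have hg := hgt q hQq
  rcases Nat.lt_or_ge (rk q + 1) r with hlow | hco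
  · -- small rank
    have hB := hb q (hta q (by omega))
    have h1 : ∑ F ∈ univ.filter (fun F : L => P F), shr Q o c D q F ≤
        ∑ F ∈ univ.filter (fun F : L => 1 ≤ rk F ∧ 2 * rk F < r ∧ F < q),
          (4 ^ (r - 2) * ((t : ℝ) / D)) := by
      rw [← Finset.sum_filter_add_sum_filter_not (univ.filter (fun F : L => P F))
        (fun F : L => F < q)]
      have e1 : ∑ F ∈ (univ.filter (fun F : L => P F)).filter (fun F : L => ¬ F < q),
          shr Q o c D q F = 0 := by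
        apply Finset.sum_eq_zero
        intro F hF
        rw [Finset.mem_filter, Finset.mem_filter] at hF
        apply shr_zero hr hQ ho hoQ hc (hP F hF.1.2)
        rintro ⟨_, _, h3⟩
        exact hF.2 h3
      rw [e1, add_zero]
      have e2 : ∑ F ∈ (univ.filter (fun F : L => P F)).filter (fun F : L => F < q),
          shr Q o c D q F ≤
          ∑ F ∈ (univ.filter (fun F : L => P F)).filter (fun F : L => F < q),
          (4 ^ (r - 2) * ((t : ℝ) / D)) := by
        apply Finset.sum_le_sum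
        intro F hF
        rw [Finset.mem_filter, Finset.mem_filter] at hF
        exact shr_one hr hc (hP F hF.1.2).2 hg htD hD0 hn
      refine e2.trans ?_
      apply Finset.sum_le_sum_of_subset_of_nonneg
      · intro F hF
        rw [Finset.mem_filter, Finset.mem_filter] at hF
        rw [Finset.mem_filter]
        exact ⟨Finset.mem_univ _, (hP F hF.1.2).2, (hP F hF.1.2).1, hF.2⟩
      · intro F _ _
        positivity
    refine h1.trans ?_
    rw [Finset.sum_const, nsmul_eq_mul]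
    have h2 : ((univ.filter (fun F : L => 1 ≤ rk F ∧ 2 * rk F < r ∧ F < q)).card : ℝ) ≤
        (r : ℝ) * (t : ℝ) ^ ((r - 1) / 2) := by
      exact_mod_cast hB
    have h3 : ((univ.filter (fun F : L => 1 ≤ rk F ∧ 2 * rk F < r ∧ F < q)).card : ℝ) *
        (4 ^ (r - 2) * ((t : ℝ) / D)) ≤
        (r : ℝ) * (t : ℝ) ^ ((r - 1) / 2) * (4 ^ (r - 2) * ((t : ℝ) / D)) :=
      mul_le_mul_of_nonneg_right h2 (by positivity)
    refine h3.trans ?_
    have h4 : (t : ℝ) ^ ((r + 1) / 2) = (t : ℝ) ^ ((r - 1) / 2) * t := by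
      have : (r + 1) / 2 = (r - 1) / 2 + 1 := by omega
      rw [this, pow_succ]
    have h5 : (r : ℝ) * (t : ℝ) ^ ((r - 1) / 2) * (4 ^ (r - 2) * ((t : ℝ) / D)) =
        (4 ^ (r - 2) * (r : ℝ) * (t : ℝ) ^ ((r + 1) / 2)) / D := by
      rw [h4]
      ring
    rw [h5, div_le_div_iff₀ hDr (by positivity)]
    have h6 : 4 ^ (r - 2) * (r : ℝ) * (t : ℝ) ^ ((r + 1) / 2) * 2 ^ (r - 2) =
        8 ^ (r - 2) * (r : ℝ) * (t : ℝ) ^ ((r + 1) / 2) := by
      rw [← h24]
      ring
    rw [h6, one_mul]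
    have h7 : (0 : ℝ) ≤ 8 ^ (r - 2) * (r : ℝ) * (t : ℝ) ^ ((r + 1) / 2) := by positivity
    linarith
  · -- coatoms
    have hco' : rk q + 1 = r := by omega
    have hqQ : at' (q ⊓ Q) ≤ t := by
      apply hta
      have h1 : q ⊓ Q < Q := lt_of_le_of_ne inf_le_right (fun h => hQq (h ▸ inf_le_left))
      have := rk_lt h1
      omega
    have hqt : q ≠ ⊤ := by
      intro h
      rw [h] at hqr
      omega
    have hNq := hN q hqt
    -- split
    rw [← Finset.sum_filter_add_sum_filter_not (univ.filter (fun F : L => P F))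
        (fun F : L => IsAtom F ∧ F ≤ q)]
    have e1 : ∑ F ∈ (univ.filter (fun F : L => P F)).filter (fun F : L => ¬ (IsAtom F ∧ F ≤ q)),
        shr Q o c D q F = 0 := by
      apply Finset.sum_eq_zero
      intro F hF
      rw [Finset.mem_filter, Finset.mem_filter] at hF
      have h0 := hP F hF.1.2
      apply shr_zero hr hQ ho hoQ hc h0
      rintro ⟨_, h2, h3⟩
      exact hF.2 ⟨atom_of_rk (by omega), h3.le⟩
    rw [e1, add_zero, ← Finset.sum_filter_add_sum_filter_not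
      ((univ.filter (fun F : L => P F)).filter (fun F : L => IsAtom F ∧ F ≤ q))
      (fun F : L => F ≤ Q)]
    have e2 : ∑ F ∈ ((univ.filter (fun F : L => P F)).filter
        (fun F : L => IsAtom F ∧ F ≤ q)).filter (fun F : L => F ≤ Q), shr Q o c D q F ≤
        (t : ℝ) * (4 ^ (r - 2) * ((t : ℝ) / D)) := by
      have h1 : ∑ F ∈ ((univ.filter (fun F : L => P F)).filter
          (fun F : L => IsAtom F ∧ F ≤ q)).filter (fun F : L => F ≤ Q), shr Q o c D q F ≤
          ∑ F ∈ ((univ.filter (fun F : L => P F)).filter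
          (fun F : L => IsAtom F ∧ F ≤ q)).filter (fun F : L => F ≤ Q),
            (4 ^ (r - 2) * ((t : ℝ) / D)) := by
        apply Finset.sum_le_sum
        intro F hF
        rw [Finset.mem_filter, Finset.mem_filter, Finset.mem_filter] at hF
        exact shr_one hr hc (hP F hF.1.1.2).2 hg htD hD0 hn
      refine h1.trans ?_
      rw [Finset.sum_const, nsmul_eq_mul]
      apply mul_le_mul_of_nonneg_right _ (by positivity)
      have h2 : (((univ.filter (fun F : L => P F)).filter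
          (fun F : L => IsAtom F ∧ F ≤ q)).filter (fun F : L => F ≤ Q)).card ≤ at' (q ⊓ Q) := by
        apply Finset.card_le_card
        intro F hF
        rw [Finset.mem_filter, Finset.mem_filter, Finset.mem_filter] at hF
        rw [Finset.mem_filter]
        exact ⟨Finset.mem_univ _, hF.1.2.1, le_inf hF.1.2.2 hF.2⟩
      exact_mod_cast h2.trans hqQ
    have e3 : ∑ F ∈ ((univ.filter (fun F : L => P F)).filter
        (fun F : L => IsAtom F ∧ F ≤ q)).filter (fun F : L => ¬ F ≤ Q), shr Q o c D q F ≤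
        (N : ℝ) * (4 ^ (r - 2) * ((t : ℝ) / D) ^ 2) := by
      have h1 : ∑ F ∈ ((univ.filter (fun F : L => P F)).filter
          (fun F : L => IsAtom F ∧ F ≤ q)).filter (fun F : L => ¬ F ≤ Q), shr Q o c D q F ≤
          ∑ F ∈ ((univ.filter (fun F : L => P F)).filter
          (fun F : L => IsAtom F ∧ F ≤ q)).filter (fun F : L => ¬ F ≤ Q),
            (4 ^ (r - 2) * ((t : ℝ) / D) ^ 2) := by
        apply Finset.sum_le_sum
        intro F hF
        rw [Finset.mem_filter, Finset.mem_filter, Finset.mem_filter] at hF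
        exact shr_two hr hc (rk_atom hF.1.2.1) hF.2 hco' hg htD hD0 hn
      refine h1.trans ?_
      rw [Finset.sum_const, nsmul_eq_mul]
      apply mul_le_mul_of_nonneg_right _ (by positivity)
      have h2 : (((univ.filter (fun F : L => P F)).filter
          (fun F : L => IsAtom F ∧ F ≤ q)).filter (fun F : L => ¬ F ≤ Q)).card ≤ at' q := by
        apply Finset.card_le_card
        intro F hF
        rw [Finset.mem_filter, Finset.mem_filter, Finset.mem_filter] at hF
        rw [Finset.mem_filter]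
        exact ⟨Finset.mem_univ _, hF.1.2.1, hF.1.2.2⟩
      exact_mod_cast h2.trans hNq
    refine (add_le_add e2 e3).trans ?_
    have h1 : (N : ℝ) * (4 ^ (r - 2) * ((t : ℝ) / D) ^ 2) ≤
        4 * (4 ^ (r - 2) * ((t : ℝ) ^ 2 / D)) := by
      have h2 : (N : ℝ) ≤ 4 * D := by exact_mod_cast hND
      calc (N : ℝ) * (4 ^ (r - 2) * ((t : ℝ) / D) ^ 2)
          ≤ (4 * D) * (4 ^ (r - 2) * ((t : ℝ) / D) ^ 2) :=
            mul_le_mul_of_nonneg_right h2 (by positivity)
        _ = 4 * (4 ^ (r - 2) * ((t : ℝ) ^ 2 / D)) := by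
            field_simp
    have h2 : (t : ℝ) * (4 ^ (r - 2) * ((t : ℝ) / D)) + 4 * (4 ^ (r - 2) * ((t : ℝ) ^ 2 / D)) =
        (5 * 4 ^ (r - 2) * (t : ℝ) ^ 2) / D := by ring
    have h3 : (t : ℝ) * (4 ^ (r - 2) * ((t : ℝ) / D)) +
        (N : ℝ) * (4 ^ (r - 2) * ((t : ℝ) / D) ^ 2) ≤
        (5 * 4 ^ (r - 2) * (t : ℝ) ^ 2) / D := by
      rw [← h2]
      linarith
    refine h3.trans ?_
    rw [div_le_div_iff₀ hDr (by positivity)]
    have h4 : (t : ℝ) ^ 2 ≤ (t : ℝ) ^ ((r + 1) / 2) := pow_le_pow_right₀ htr (by omega)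
    have h5 : 5 * 4 ^ (r - 2) * (t : ℝ) ^ 2 * 2 ^ (r - 2) = 5 * 8 ^ (r - 2) * (t : ℝ) ^ 2 := by
      rw [← h24]
      ring
    rw [h5, one_mul]
    have h6 : 5 * 8 ^ (r - 2) * (t : ℝ) ^ 2 ≤
        64 * 8 ^ (r - 2) * (r : ℝ) * (t : ℝ) ^ ((r + 1) / 2) := by
      calc 5 * 8 ^ (r - 2) * (t : ℝ) ^ 2 ≤ 5 * 8 ^ (r - 2) * (t : ℝ) ^ ((r + 1) / 2) :=
            mul_le_mul_of_nonneg_left h4 (by positivity)
        _ ≤ 64 * 8 ^ (r - 2) * (r : ℝ) * (t : ℝ) ^ ((r + 1) / 2) := by
            apply mul_le_mul_of_nonneg_right _ (by positivity)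
            nlinarith
    linarith

end

end Pool.Agent.Helper85.SC
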