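import Pool.Agent.Helper28.TW.Lift
import Pool.Agent.Helper50.TW.Lift

/-!
# From the bottom to any element: rank four with many atoms
-/

set_option autoImplicit false
set_option linter.unusedSectionVars false

namespace Pool.Agent.Helper85.SC

open Pool.Agent.Helper28.BPack

/-- The statement: every geometric lattice of rank `R` with at least `n0` atoms has a packing. -/
def AllLarge (R n0 : ℕ) : Prop :=
  ∀ (L : Type) [Lattice L] [BoundedOrder L] [Fintype L] [IsUpperModularLattice L],
    (∀ x : L, ∃ s : Finset L, (∀ a ∈ s, IsAtom a) ∧ s.sup id = x) → rk (⊤ : L) = R →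
      n0 ≤ {a : L | IsAtom a}.ncard → HasPack (⊥ : L)

variable {L : Type} [Lattice L] [BoundedOrder L] [Fintype L] [IsUpperModularLattice L]

/-- over any element `f` -/
theorem hasPack_of_allLarge {R n0 : ℕ} (H : AllLarge R n0)
    (hat : ∀ x : L, ∃ s : Finset L, (∀ a ∈ s, IsAtom a) ∧ s.sup id = x)
    {f : L} (hR : rk (⊤ : L) = rk f + R) (h : n0 ≤ {u : L | f ⋖ u}.ncard) : HasPack f := by
  classical
  have hum := Pool.Agent.Helper50.TW.ici_um f
  have hrk : ∀ z : Set.Ici f, rk z + rk f = rk (z : L) := by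
    intro z
    have h1 := Pool.Agent.Helper28.TW.height_Ici (L := L) (e := f) z
    rw [← coe_rk (L := Set.Ici f)] at h1
    exact_mod_cast h1
  have hatom : ∀ z : Set.Ici f, IsAtom z ↔ f ⋖ (z : L) := by
    intro z
    rw [← bot_covBy_iff, Pool.Agent.Helper50.TW.ici_cov]
    rfl
  have hrt : rk (⊤ : Set.Ici f) = R := by
    have h1 := hrk ⊤
    have h2 : ((⊤ : Set.Ici f) : L) = ⊤ := rfl
    rw [h2] at h1
    omega
  have hatI := Pool.Agent.Helper50.TW.ici_atomistic hat f
  have hpack : HasPack (⊥ : Set.Ici f) := by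
    refine H (Set.Ici f) hatI hrt ?_
    refine h.trans ?_
    rw [← Set.ncard_image_of_injective {a : Set.Ici f | IsAtom a} Subtype.val_injective]
    apply Set.ncard_le_ncard _ (Set.toFinite _)
    intro u hu
    exact ⟨⟨u, hu.le⟩, (hatom _).mpr hu, rfl⟩
  apply Pool.Agent.Helper28.TW.hasPack_of_Ici hat f
  exact hpack.to_packing

end Pool.Agent.Helper85.SC
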